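import Mathlib
import Pool.Agent.helper97.GUE.Defs

set_option autoImplicit false
set_option linter.unusedSectionVars false
open scoped Matrix ComplexOrder Pointwise

namespace Pool.Agent.helper16.GUE

open Pool.Agent.helper97.GUE

variable {κ ν : Type*} [Fintype κ] [DecidableEq κ] [Fintype ν]

theorem exists_spec (b : Matrix κ κ ℂ) (hb : b.IsHermitian) : ∃ U : Matrix κ κ ℂ, Uᴴ * U = 1 ∧
    U * Uᴴ = 1 ∧ b = U * Matrix.diagonal (fun j => (hb.eigenvalues j : ℂ)) * Uᴴ ∧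
    b.det = ((∏ j, hb.eigenvalues j : ℝ) : ℂ) := by
  refine ⟨(hb.eigenvectorUnitary : Matrix κ κ ℂ), Unitary.coe_star_mul_self _,
    Unitary.coe_mul_star_self _, ?_, ?_⟩
  · have := hb.spectral_theorem
    rw [Unitary.conjStarAlgAut_apply] at this
    exact this
  · rw [hb.det_eq_prod_eigenvalues, Complex.ofReal_prod]
    rfl

theorem posSemidef_eta (a : ν → Matrix κ κ ℂ) {b : Matrix κ κ ℂ} (hb : b.PosSemidef) :
    (∑ i, a i * b * (a i)ᴴ).PosSemidef :=
  Matrix.posSemidef_sum _ fun i _ => hb.mul_mul_conjTranspose_same (a i)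

theorem entry_sq (E : Matrix κ κ ℂ) (j : κ) : (E * Eᴴ) j j = ((∑ k, ‖E j k‖ ^ 2 : ℝ) : ℂ) := by
  rw [Matrix.mul_apply, Complex.ofReal_sum]
  refine Finset.sum_congr rfl fun l _ => ?_
  rw [Matrix.conjTranspose_apply, ← starRingEnd_apply, Complex.mul_conj', Complex.ofReal_pow]

theorem entry_sq' (E : Matrix κ κ ℂ) (k : κ) : (Eᴴ * E) k k = ((∑ j, ‖E j k‖ ^ 2 : ℝ) : ℂ) := by
  rw [Matrix.mul_apply, Complex.ofReal_sum]
  refine Finset.sum_congr rfl fun l _ => ?_
  rw [Matrix.conjTranspose_apply, ← starRingEnd_apply, Complex.conj_mul', Complex.ofReal_pow]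

theorem det_ge_of_ds (a : ν → Matrix κ κ ℂ) (h1 : ∑ i, a i * (a i)ᴴ = 1)
    (h2 : ∑ i, (a i)ᴴ * a i = 1) (b : Matrix κ κ ℂ) (hb : b.PosDef) :
    b.det.re ≤ (∑ i, a i * b * (a i)ᴴ).det.re := by
  have hη := posSemidef_eta a hb.posSemidef
  obtain ⟨U, hU1, hU2, hbU, hbdet⟩ := exists_spec b hb.isHermitian
  obtain ⟨V, hV1, hV2, hηV, hηdet⟩ := exists_spec _ hη.isHermitian
  set lam := hb.isHermitian.eigenvalues with hlam
  set bet := hη.isHermitian.eigenvalues with hbet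
  have hlpos : ∀ k, 0 < lam k := hb.eigenvalues_pos
  rw [hbdet, hηdet, Complex.ofReal_re, Complex.ofReal_re]
  set E : ν → Matrix κ κ ℂ := fun i => Vᴴ * a i * U with hE
  set D : κ → κ → ℝ := fun j k => ∑ i, ‖E i j k‖ ^ 2 with hD
  have hD0 : ∀ j k, 0 ≤ D j k := fun j k => Finset.sum_nonneg fun _ _ => sq_nonneg _
  have hrow : ∀ j, ∑ k, D j k = 1 := by
    intro j
    have e1 : ∑ i, E i * (E i)ᴴ = 1 := by
      have : ∀ i, E i * (E i)ᴴ = Vᴴ * (a i * (a i)ᴴ) * V := by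
        intro i
        simp only [hE, Matrix.conjTranspose_mul, Matrix.conjTranspose_conjTranspose]
        calc Vᴴ * a i * U * (Uᴴ * ((a i)ᴴ * V)) = Vᴴ * a i * (U * Uᴴ) * (a i)ᴴ * V := by
              simp only [Matrix.mul_assoc]
          _ = _ := by rw [hU2, Matrix.mul_one]; simp only [Matrix.mul_assoc]
      rw [Finset.sum_congr rfl fun i _ => this i, ← Matrix.sum_mul, ← Matrix.mul_sum, h1,
        Matrix.mul_one, hV1]
    have e2 := congrFun (congrFun e1 j) j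
    rw [Matrix.sum_apply, Matrix.one_apply_eq] at e2
    simp only [entry_sq] at e2
    rw [← Complex.ofReal_sum] at e2
    have e3 : ∑ i, ∑ k, ‖E i j k‖ ^ 2 = 1 := by exact_mod_cast e2
    rw [← e3, Finset.sum_comm]
  have hcol : ∀ k, ∑ j, D j k = 1 := by
    intro k
    have e1 : ∑ i, (E i)ᴴ * E i = 1 := by
      have : ∀ i, (E i)ᴴ * E i = Uᴴ * ((a i)ᴴ * a i) * U := by
        intro i
        simp only [hE, Matrix.conjTranspose_mul, Matrix.conjTranspose_conjTranspose]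
        calc Uᴴ * ((a i)ᴴ * V) * (Vᴴ * a i * U) = Uᴴ * (a i)ᴴ * (V * Vᴴ) * a i * U := by
              simp only [Matrix.mul_assoc]
          _ = _ := by rw [hV2, Matrix.mul_one]; simp only [Matrix.mul_assoc]
      rw [Finset.sum_congr rfl fun i _ => this i, ← Matrix.sum_mul, ← Matrix.mul_sum, h2,
        Matrix.mul_one, hU1]
    have e2 := congrFun (congrFun e1 k) k
    rw [Matrix.sum_apply, Matrix.one_apply_eq] at e2
    simp only [entry_sq'] at e2
    rw [← Complex.ofReal_sum] at e2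
    have e3 : ∑ i, ∑ j, ‖E i j k‖ ^ 2 = 1 := by exact_mod_cast e2
    rw [← e3, Finset.sum_comm]
  have hbet' : ∀ j, bet j = ∑ k, D j k * lam k := by
    intro j
    have e1 : Vᴴ * (∑ i, a i * b * (a i)ᴴ) * V = Matrix.diagonal (fun j => (bet j : ℂ)) := by
      calc Vᴴ * (∑ i, a i * b * (a i)ᴴ) * V
          = Vᴴ * (V * Matrix.diagonal (fun j => (bet j : ℂ)) * Vᴴ) * V := congrArg
            (fun M => Vᴴ * M * V) hηV
        _ = (Vᴴ * V) * Matrix.diagonal (fun j => (bet j : ℂ)) * (Vᴴ * V) := by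
          simp only [Matrix.mul_assoc]
        _ = _ := by rw [hV1, Matrix.one_mul, Matrix.mul_one]
    have e2 : Vᴴ * (∑ i, a i * b * (a i)ᴴ) * V =
        ∑ i, E i * Matrix.diagonal (fun j => (lam j : ℂ)) * (E i)ᴴ := by
      rw [Matrix.mul_sum, Matrix.sum_mul]
      refine Finset.sum_congr rfl fun i _ => ?_
      have e3 : a i * b * (a i)ᴴ =
          a i * (U * Matrix.diagonal (fun j => (lam j : ℂ)) * Uᴴ) * (a i)ᴴ :=
        congrArg (fun M => a i * M * (a i)ᴴ) hbU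
      rw [e3]
      simp only [hE, Matrix.conjTranspose_mul, Matrix.conjTranspose_conjTranspose,
        Matrix.mul_assoc]
    have e3 := congrFun (congrFun (e1.symm.trans e2) j) j
    rw [Matrix.diagonal_apply_eq, Matrix.sum_apply] at e3
    have e4 : ∀ i, (E i * Matrix.diagonal (fun j => (lam j : ℂ)) * (E i)ᴴ) j j =
        ((∑ k, ‖E i j k‖ ^ 2 * lam k : ℝ) : ℂ) := by
      intro i
      rw [Matrix.mul_apply, Complex.ofReal_sum]
      refine Finset.sum_congr rfl fun k _ => ?_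
      rw [Matrix.mul_diagonal, Matrix.conjTranspose_apply, ← starRingEnd_apply]
      calc E i j k * (lam k : ℂ) * (starRingEnd ℂ) (E i j k)
          = (E i j k * (starRingEnd ℂ) (E i j k)) * lam k := by ring
        _ = _ := by rw [Complex.mul_conj']; push_cast; ring
    simp only [e4] at e3
    rw [← Complex.ofReal_sum] at e3
    have e5 : bet j = ∑ i, ∑ k, ‖E i j k‖ ^ 2 * lam k := by exact_mod_cast e3
    rw [e5, Finset.sum_comm]
    refine Finset.sum_congr rfl fun k _ => ?_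
    rw [hD, Finset.sum_mul]
  calc ∏ k, lam k = ∏ k, ∏ j, lam k ^ D j k := by
        refine Finset.prod_congr rfl fun k _ => ?_
        rw [← Real.rpow_sum_of_pos (hlpos k), hcol, Real.rpow_one]
    _ = ∏ j, ∏ k, lam k ^ D j k := Finset.prod_comm
    _ ≤ ∏ j, bet j := by
      refine Finset.prod_le_prod (fun j _ => Finset.prod_nonneg fun k _ =>
        Real.rpow_nonneg (hlpos k).le _) fun j _ => ?_
      rw [hbet']
      exact Real.geom_mean_le_arith_mean_weighted _ _ _ (fun k _ => hD0 j k) (hrow j)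
        fun k _ => (hlpos k).le

theorem cap_mul (a : ν → Matrix κ κ ℂ) (p q : Matrix κ κ ℂ) (hp : IsUnit p.det)
    (hq : IsUnit q.det) :
    cap (fun i => p * a i * q) = ‖p.det‖ ^ 2 * ‖q.det‖ ^ 2 * cap a := by
  have hqu : IsUnit q := (Matrix.isUnit_iff_isUnit_det q).2 hq
  have hqd : ‖q.det‖ ^ 2 ≠ 0 := by
    have := hq.ne_zero
    positivity
  have hdet : ∀ b : Matrix κ κ ℂ, ((∑ i, p * a i * q * b * (p * a i * q)ᴴ).det).re / b.det.re =
      ‖p.det‖ ^ 2 * ‖q.det‖ ^ 2 * ((∑ i, a i * (q * b * qᴴ) * (a i)ᴴ).det.re /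
        (q * b * qᴴ).det.re) := by
    intro b
    have e1 : ∑ i, p * a i * q * b * (p * a i * q)ᴴ = p * (∑ i, a i * (q * b * qᴴ) * (a i)ᴴ) * pᴴ := by
      rw [Matrix.mul_sum, Matrix.sum_mul]
      refine Finset.sum_congr rfl fun i _ => ?_
      simp only [Matrix.conjTranspose_mul, Matrix.mul_assoc]
    have e2 : ∀ (g M : Matrix κ κ ℂ), ((g * M * gᴴ).det).re = ‖g.det‖ ^ 2 * M.det.re := by
      intro g M
      rw [Matrix.det_mul, Matrix.det_mul, Matrix.det_conjTranspose, ← starRingEnd_apply]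
      have : g.det * M.det * (starRingEnd ℂ) g.det = (g.det * (starRingEnd ℂ) g.det) * M.det := by
        ring
      rw [this, Complex.mul_conj', ← Complex.ofReal_pow, Complex.re_ofReal_mul]
    rw [e1, e2, e2]
    by_cases hb0 : b.det.re = 0
    · simp [hb0]
    · have hqn : ‖q.det‖ ≠ 0 := fun h => hqd (by rw [h]; ring)
      field_simp
  rw [cap, cap, ← smul_eq_mul (_ * _), ← Real.sInf_smul_of_nonneg (by positivity)]
  congr 1
  ext c
  rw [Set.mem_smul_set]
  constructor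
  · rintro ⟨b, hb, rfl⟩
    refine ⟨_, ⟨q * b * qᴴ, ?_, rfl⟩, ?_⟩
    · exact (Matrix.IsUnit.posDef_star_right_conjugate_iff hqu).2 hb
    · rw [smul_eq_mul, hdet]
  · rintro ⟨_, ⟨b, hb, rfl⟩, rfl⟩
    refine ⟨q⁻¹ * b * (q⁻¹)ᴴ, ?_, ?_⟩
    · exact (Matrix.IsUnit.posDef_star_right_conjugate_iff (Matrix.isUnit_nonsing_inv_iff.2 hqu)).2 hb
    · rw [hdet, smul_eq_mul]
      have : q * (q⁻¹ * b * (q⁻¹)ᴴ) * qᴴ = b := by
        calc q * (q⁻¹ * b * (q⁻¹)ᴴ) * qᴴ = (q * q⁻¹) * b * (q * q⁻¹)ᴴ := by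
              simp only [Matrix.conjTranspose_mul, Matrix.mul_assoc]
          _ = b := by
            rw [Matrix.mul_nonsing_inv _ hq, Matrix.conjTranspose_one, Matrix.one_mul,
              Matrix.mul_one]
      rw [this]

theorem one_le_det_one_add {Q : Matrix κ κ ℂ} (hQ : Q.PosSemidef) : 1 ≤ (1 + Q).det.re := by
  obtain ⟨U, hU1, hU2, hQU, -⟩ := exists_spec Q hQ.isHermitian
  have e1 : 1 + Q = U * Matrix.diagonal (fun j => ((1 + hQ.isHermitian.eigenvalues j : ℝ) : ℂ)) *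
      Uᴴ := by
    have e2 : Matrix.diagonal (fun j => ((1 + hQ.isHermitian.eigenvalues j : ℝ) : ℂ)) =
        1 + Matrix.diagonal (fun j => (hQ.isHermitian.eigenvalues j : ℂ)) := by
      rw [← Matrix.diagonal_one, Matrix.diagonal_add]
      congr 1
      ext j
      push_cast
      rfl
    rw [e2, Matrix.mul_add, Matrix.mul_one, Matrix.add_mul, hU2]
    exact congrArg (fun M => 1 + M) hQU
  have e3 : U.det * Uᴴ.det = 1 := by rw [← Matrix.det_mul, hU2, Matrix.det_one]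
  have e4 : (1 + Q).det = ((∏ j, (1 + hQ.isHermitian.eigenvalues j) : ℝ) : ℂ) := by
    rw [e1, Matrix.det_mul, Matrix.det_mul, Matrix.det_diagonal, Complex.ofReal_prod]
    calc U.det * (∏ j, ((1 + hQ.isHermitian.eigenvalues j : ℝ) : ℂ)) * Uᴴ.det
        = (U.det * Uᴴ.det) * (∏ j, ((1 + hQ.isHermitian.eigenvalues j : ℝ) : ℂ)) := by ring
      _ = _ := by rw [e3, one_mul]
  rw [e4, Complex.ofReal_re]
  have h1 : ∏ _j : κ, (1 : ℝ) ≤ ∏ j, (1 + hQ.isHermitian.eigenvalues j) :=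
    Finset.prod_le_prod (fun _ _ => zero_le_one) fun j _ => by
      have := hQ.eigenvalues_nonneg j
      linarith
  rwa [Finset.prod_const_one] at h1

theorem det_re_nonneg {P : Matrix κ κ ℂ} (hP : P.PosSemidef) : 0 ≤ P.det.re :=
  (Complex.le_def.1 hP.det_nonneg).1

theorem det_re_pos {P : Matrix κ κ ℂ} (hP : P.PosDef) : 0 < P.det.re :=
  (Complex.lt_def.1 hP.det_pos).1

theorem det_im_zero {P : Matrix κ κ ℂ} (hP : P.PosSemidef) : P.det.im = 0 :=
  ((Complex.le_def.1 hP.det_nonneg).2).symm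

theorem det_eq_re {P : Matrix κ κ ℂ} (hP : P.PosSemidef) : P.det = (P.det.re : ℂ) := by
  apply Complex.ext
  · rw [Complex.ofReal_re]
  · rw [Complex.ofReal_im, det_im_zero hP]

theorem exists_root {P : Matrix κ κ ℂ} (hP : P.PosSemidef) : ∃ R : Matrix κ κ ℂ, P = R * Rᴴ := by
  obtain ⟨U, -, -, hPU, -⟩ := exists_spec P hP.isHermitian
  refine ⟨U * Matrix.diagonal (fun j => (Real.sqrt (hP.isHermitian.eigenvalues j) : ℂ)), ?_⟩
  have hd : Matrix.diagonal (fun j => (Real.sqrt (hP.isHermitian.eigenvalues j) : ℂ)) *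
      (Matrix.diagonal (fun j => (Real.sqrt (hP.isHermitian.eigenvalues j) : ℂ)))ᴴ =
      Matrix.diagonal (fun j => (hP.isHermitian.eigenvalues j : ℂ)) := by
    rw [Matrix.diagonal_conjTranspose, Matrix.diagonal_mul_diagonal]
    congr 1
    ext j
    simp only [Pi.star_apply, Complex.star_def, Complex.conj_ofReal]
    rw [← Complex.ofReal_mul, Real.mul_self_sqrt (hP.eigenvalues_nonneg j)]
  calc P = U * Matrix.diagonal (fun j => (hP.isHermitian.eigenvalues j : ℂ)) * Uᴴ := hPU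
    _ = _ := by
      rw [← hd]
      simp only [Matrix.conjTranspose_mul, Matrix.mul_assoc]

theorem det_mono {P Q : Matrix κ κ ℂ} (hP : P.PosSemidef) (hQ : Q.PosSemidef) :
    P.det.re ≤ (P + Q).det.re := by
  by_cases h0 : P.det = 0
  · rw [h0, Complex.zero_re]
    exact det_re_nonneg (hP.add hQ)
  · have hPD : P.PosDef := hP.posDef_iff_det_ne_zero.2 h0
    obtain ⟨R, hR⟩ := exists_root hP
    have hRd : IsUnit R.det := by
      rw [hR, Matrix.det_mul] at h0
      exact isUnit_iff_ne_zero.2 (left_ne_zero_of_mul h0)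
    have hRH : IsUnit (Rᴴ).det := by
      rw [Matrix.det_conjTranspose]
      exact hRd.star
    have e1 : P + Q = R * (1 + R⁻¹ * Q * (R⁻¹)ᴴ) * Rᴴ := by
      rw [Matrix.mul_add, Matrix.add_mul, Matrix.mul_one, ← hR]
      congr 1
      calc Q = (R * R⁻¹) * Q * (R * R⁻¹)ᴴ := by
            rw [Matrix.mul_nonsing_inv _ hRd, Matrix.conjTranspose_one, Matrix.one_mul,
              Matrix.mul_one]
        _ = _ := by simp only [Matrix.conjTranspose_mul, Matrix.mul_assoc]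
    have h1 := one_le_det_one_add (hQ.mul_mul_conjTranspose_same R⁻¹)
    have e2 : (P + Q).det = P.det * (1 + R⁻¹ * Q * (R⁻¹)ᴴ).det := by
      rw [e1, Matrix.det_mul, Matrix.det_mul, hR, Matrix.det_mul]
      ring
    rw [e2, det_eq_re hP, Complex.re_ofReal_mul, Complex.ofReal_re]
    have h2 := det_re_nonneg hP
    nlinarith

/-- the values whose infimum is the capacity -/
def vals (a : ν → Matrix κ κ ℂ) : Set ℝ :=
  {c : ℝ | ∃ b : Matrix κ κ ℂ, b.PosDef ∧ c = (∑ i, a i * b * (a i)ᴴ).det.re / b.det.re}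

theorem vals_nonneg {a : ν → Matrix κ κ ℂ} {c : ℝ} (hc : c ∈ vals a) : 0 ≤ c := by
  obtain ⟨b, hb, rfl⟩ := hc
  exact div_nonneg (det_re_nonneg (posSemidef_eta a hb.posSemidef)) (det_re_pos hb).le

theorem vals_nonempty (a : ν → Matrix κ κ ℂ) : (vals a).Nonempty :=
  ⟨_, 1, Matrix.PosDef.one, rfl⟩

theorem vals_bdd (a : ν → Matrix κ κ ℂ) : BddBelow (vals a) := ⟨0, fun _ h => vals_nonneg h⟩

theorem cap_nonneg (a : ν → Matrix κ κ ℂ) : 0 ≤ cap a :=
  le_csInf (vals_nonempty a) fun _ h => vals_nonneg h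

theorem cap_le (a : ν → Matrix κ κ ℂ) {b : Matrix κ κ ℂ} (hb : b.PosDef) :
    cap a * b.det.re ≤ (∑ i, a i * b * (a i)ᴴ).det.re := by
  have h1 : cap a ≤ (∑ i, a i * b * (a i)ᴴ).det.re / b.det.re :=
    csInf_le (vals_bdd a) ⟨b, hb, rfl⟩
  exact (le_div_iff₀ (det_re_pos hb)).1 h1

theorem le_mul_of_forall {c : ℝ} {s t : Set ℝ} (hs : s.Nonempty) (ht : t.Nonempty)
    (hs0 : ∀ x ∈ s, 0 ≤ x) (ht0 : ∀ x ∈ t, 0 ≤ x) (h : ∀ x ∈ s, ∀ y ∈ t, c ≤ x * y) :
    c ≤ sInf s * sInf t := by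
  have hti : 0 ≤ sInf t := le_csInf ht ht0
  have h1 : ∀ x ∈ s, c ≤ x * sInf t := by
    intro x hx
    rcases (hs0 x hx).eq_or_lt with h0 | h0
    · obtain ⟨y, hy⟩ := ht
      have := h x hx y hy
      rw [← h0, zero_mul] at this ⊢
      exact this
    · rw [← div_le_iff₀' h0]
      exact le_csInf ht fun y hy => (div_le_iff₀' h0).2 (h x hx y hy)
  rcases hti.eq_or_lt with h0 | h0
  · obtain ⟨x, hx⟩ := hs
    have := h1 x hx
    rw [← h0, mul_zero] at this ⊢
    exact this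
  · rw [← div_le_iff₀ h0]
    exact le_csInf hs fun x hx => (div_le_iff₀ h0).2 (h1 x hx)

end Pool.Agent.helper16.GUE
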