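import Mathlib
import Pool.Agent.helper16.GUE.Cap

set_option autoImplicit false
set_option linter.unusedSectionVars false
open scoped Matrix ComplexOrder Pointwise Topology

namespace Pool.Agent.helper16.GUE

open Pool.Agent.helper97.GUE

variable {κ₁ κ₂ ν : Type*} [Fintype κ₁] [DecidableEq κ₁] [Fintype κ₂] [DecidableEq κ₂] [Fintype ν]

theorem sum_fromBlocks (A : ν → Matrix κ₁ κ₁ ℂ) (B : ν → Matrix κ₁ κ₂ ℂ)
    (C : ν → Matrix κ₂ κ₁ ℂ) (D : ν → Matrix κ₂ κ₂ ℂ) :
    ∑ i, Matrix.fromBlocks (A i) (B i) (C i) (D i) =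
      Matrix.fromBlocks (∑ i, A i) (∑ i, B i) (∑ i, C i) (∑ i, D i) := by
  ext x y
  rcases x with x | x <;> rcases y with y | y <;> simp [Matrix.sum_apply]

/-- lower bound for block diagonal `M` -/
theorem lower_diag (a : ν → Matrix κ₁ κ₁ ℂ) (b : ν → Matrix κ₁ κ₂ ℂ) (d : ν → Matrix κ₂ κ₂ ℂ)
    {S : Matrix κ₁ κ₁ ℂ} {B : Matrix κ₂ κ₂ ℂ} (hS : S.PosDef) (hB : B.PosDef) :
    cap a * cap d * (S.det.re * B.det.re) ≤
      (∑ i, Matrix.fromBlocks (a i) (b i) 0 (d i) * Matrix.fromBlocks S 0 0 B *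
        (Matrix.fromBlocks (a i) (b i) 0 (d i))ᴴ).det.re := by
  set X := ∑ i, a i * S * (a i)ᴴ with hX
  set G11 := ∑ i, b i * B * (b i)ᴴ with hG11
  set G12 := ∑ i, b i * B * (d i)ᴴ with hG12
  set Z := ∑ i, d i * B * (d i)ᴴ with hZ
  have hXp : X.PosSemidef := posSemidef_eta a hS.posSemidef
  have hZp : Z.PosSemidef := posSemidef_eta d hB.posSemidef
  have hBH : Bᴴ = B := hB.isHermitian
  have hG12H : G12ᴴ = ∑ i, d i * B * (b i)ᴴ := by
    rw [hG12, Matrix.conjTranspose_sum]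
    refine Finset.sum_congr rfl fun i _ => ?_
    simp only [Matrix.conjTranspose_mul, Matrix.conjTranspose_conjTranspose, hBH, Matrix.mul_assoc]
  have hG : (Matrix.fromBlocks G11 G12 G12ᴴ Z).PosSemidef := by
    have e1 : Matrix.fromBlocks G11 G12 G12ᴴ Z =
        ∑ i, Matrix.fromRows (b i) (d i) * B * (Matrix.fromRows (b i) (d i))ᴴ := by
      rw [hG12H, hG11, hG12, hZ, ← sum_fromBlocks]
      refine Finset.sum_congr rfl fun i _ => ?_
      rw [Matrix.conjTranspose_fromRows_eq_fromCols_conjTranspose, Matrix.fromRows_mul,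
        Matrix.fromRows_mul_fromCols]
    rw [e1]
    exact Matrix.posSemidef_sum _ fun i _ => hB.posSemidef.mul_mul_conjTranspose_same _
  have hη : (∑ i, Matrix.fromBlocks (a i) (b i) 0 (d i) * Matrix.fromBlocks S 0 0 B *
        (Matrix.fromBlocks (a i) (b i) 0 (d i))ᴴ) = Matrix.fromBlocks (X + G11) G12 G12ᴴ Z := by
    rw [hG12H, hX, hG11, hG12, hZ, ← Finset.sum_add_distrib, ← sum_fromBlocks]
    refine Finset.sum_congr rfl fun i _ => ?_
    rw [Matrix.fromBlocks_conjTranspose, Matrix.fromBlocks_multiply, Matrix.fromBlocks_multiply]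
    simp
  have hηp : (Matrix.fromBlocks (X + G11) G12 G12ᴴ Z).PosSemidef := by
    rw [← hη]
    have hM : (Matrix.fromBlocks S 0 0 B).PosSemidef := by
      have : Invertible B := hB.isUnit.invertible
      have h1 := (Matrix.PosDef.fromBlocks₂₂ S (0 : Matrix κ₁ κ₂ ℂ) hB).2 (by
        simpa using hS.posSemidef)
      simpa using h1
    exact posSemidef_eta (fun i => Matrix.fromBlocks (a i) (b i) 0 (d i)) hM
  rw [hη]
  have h1 := cap_le a hS
  have h2 := cap_le d hB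
  rw [← hX] at h1
  rw [← hZ] at h2
  by_cases hZ0 : Z.det = 0
  · rw [hZ0, Complex.zero_re] at h2
    have h3 : cap d = 0 := le_antisymm (by
      by_contra hcon
      push Not at hcon
      have := mul_pos hcon (det_re_pos hB)
      linarith) (cap_nonneg d)
    rw [h3, mul_zero, zero_mul]
    exact det_re_nonneg hηp
  · have hZD : Z.PosDef := hZp.posDef_iff_det_ne_zero.2 hZ0
    have : Invertible Z := hZD.isUnit.invertible
    have hsch : (G11 - G12 * Z⁻¹ * G12ᴴ).PosSemidef :=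
      (Matrix.PosDef.fromBlocks₂₂ G11 G12 hZD).1 hG
    have e1 : X + G11 - G12 * ⅟Z * G12ᴴ = X + (G11 - G12 * Z⁻¹ * G12ᴴ) := by
      rw [Matrix.invOf_eq_nonsing_inv]
      abel
    rw [Matrix.det_fromBlocks₂₂, e1, det_eq_re hZp, Complex.re_ofReal_mul]
    have h3 := det_mono hXp hsch
    have h4 : 0 ≤ cap a * S.det.re := mul_nonneg (cap_nonneg a) (det_re_pos hS).le
    calc cap a * cap d * (S.det.re * B.det.re)
        = (cap d * B.det.re) * (cap a * S.det.re) := by ring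
      _ ≤ Z.det.re * X.det.re := mul_le_mul h2 h1 h4 (det_re_nonneg hZp)
      _ ≤ _ := mul_le_mul_of_nonneg_left h3 (det_re_nonneg hZp)

theorem lower_bd (a : ν → Matrix κ₁ κ₁ ℂ) (b : ν → Matrix κ₁ κ₂ ℂ) (d : ν → Matrix κ₂ κ₂ ℂ)
    {M : Matrix (κ₁ ⊕ κ₂) (κ₁ ⊕ κ₂) ℂ} (hM : M.PosDef) :
    cap a * cap d * M.det.re ≤
      (∑ i, Matrix.fromBlocks (a i) (b i) 0 (d i) * M *
        (Matrix.fromBlocks (a i) (b i) 0 (d i))ᴴ).det.re := by
  set M11 := M.toBlocks₁₁ with hM11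
  set M12 := M.toBlocks₁₂ with hM12
  set M21 := M.toBlocks₂₁ with hM21
  set M22 := M.toBlocks₂₂ with hM22
  have hMb : M = Matrix.fromBlocks M11 M12 M21 M22 := (Matrix.fromBlocks_toBlocks M).symm
  have hM22p : M22.PosDef := hM.submatrix Sum.inr_injective
  have hM21H : M21 = M12ᴴ := by
    ext i j
    have := hM.isHermitian.apply (Sum.inr i) (Sum.inl j)
    exact this.symm
  have hinv : Invertible M22 := hM22p.isUnit.invertible
  set T : Matrix κ₁ κ₂ ℂ := M12 * ⅟M22 with hT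
  set S : Matrix κ₁ κ₁ ℂ := M11 - M12 * ⅟M22 * M21 with hS
  have hM22H : (⅟M22)ᴴ = ⅟M22 := by
    rw [Matrix.invOf_eq_nonsing_inv, Matrix.conjTranspose_nonsing_inv, hM22p.isHermitian]
  have hL : M = Matrix.fromBlocks 1 T 0 1 * Matrix.fromBlocks S 0 0 M22 *
      (Matrix.fromBlocks 1 T 0 1)ᴴ := by
    have h1 := Matrix.fromBlocks_eq_of_invertible₂₂ M11 M12 M21 M22
    rw [← hMb] at h1
    have hTH : Tᴴ = ⅟M22 * M21 := by rw [hT, Matrix.conjTranspose_mul, hM22H, hM21H]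
    rw [Matrix.fromBlocks_conjTranspose, Matrix.conjTranspose_one, Matrix.conjTranspose_one,
      Matrix.conjTranspose_zero, hTH]
    exact h1
  have hdetL : (Matrix.fromBlocks (1 : Matrix κ₁ κ₁ ℂ) T 0 1).det = 1 := by
    rw [Matrix.det_fromBlocks_zero₂₁, Matrix.det_one, Matrix.det_one, one_mul]
  have hLu : IsUnit (Matrix.fromBlocks (1 : Matrix κ₁ κ₁ ℂ) T 0 (1 : Matrix κ₂ κ₂ ℂ)) := by
    rw [Matrix.isUnit_iff_isUnit_det, hdetL]
    exact isUnit_one
  have hdiag : (Matrix.fromBlocks S 0 0 M22).PosDef := by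
    rw [hL] at hM
    exact (Matrix.IsUnit.posDef_star_right_conjugate_iff hLu).1 hM
  have hSp : S.PosDef := by
    have := hdiag.submatrix (e := Sum.inl) Sum.inl_injective
    exact this
  have hdet : M.det.re = S.det.re * M22.det.re := by
    rw [hL, Matrix.det_mul, Matrix.det_mul, Matrix.det_conjTranspose, hdetL,
      Matrix.det_fromBlocks_zero₂₁, star_one, one_mul, mul_one, det_eq_re hSp.posSemidef,
      Complex.re_ofReal_mul, Complex.ofReal_re]
  have h1 := lower_diag a (fun i => a i * T + b i) d hSp hM22p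
  rw [← hdet] at h1
  refine h1.trans (le_of_eq ?_)
  congr 2
  refine Finset.sum_congr rfl fun i _ => ?_
  have e1 : Matrix.fromBlocks (a i) (a i * T + b i) 0 (d i) =
      Matrix.fromBlocks (a i) (b i) 0 (d i) * Matrix.fromBlocks 1 T 0 1 := by
    rw [Matrix.fromBlocks_multiply]
    simp
  rw [e1, Matrix.conjTranspose_mul]
  conv_rhs => rw [hL]
  simp only [Matrix.mul_assoc]

theorem upper_bd (a : ν → Matrix κ₁ κ₁ ℂ) (b : ν → Matrix κ₁ κ₂ ℂ) (d : ν → Matrix κ₂ κ₂ ℂ)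
    {S : Matrix κ₁ κ₁ ℂ} {B : Matrix κ₂ κ₂ ℂ} (hS : S.PosDef) (hB : B.PosDef) :
    cap (fun i => Matrix.fromBlocks (a i) (b i) 0 (d i)) * (S.det.re * B.det.re) ≤
      (∑ i, a i * S * (a i)ᴴ).det.re * (∑ i, d i * B * (d i)ᴴ).det.re := by
  set X := ∑ i, a i * S * (a i)ᴴ with hX
  set G11 := ∑ i, b i * B * (b i)ᴴ with hG11
  set G12 := ∑ i, b i * B * (d i)ᴴ with hG12
  set G21 := ∑ i, d i * B * (b i)ᴴ with hG21
  set Z := ∑ i, d i * B * (d i)ᴴ with hZ
  have hXp : X.PosSemidef := posSemidef_eta a hS.posSemidef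
  set n := Fintype.card κ₂ with hn
  have key : ∀ ε : ℝ, 0 < ε →
      cap (fun i => Matrix.fromBlocks (a i) (b i) 0 (d i)) * (S.det.re * B.det.re) ≤
      (Matrix.fromBlocks (X + (ε : ℂ) • G11) ((ε : ℂ) • G12) G21 Z).det.re := by
    intro ε hε
    have hεc : (0 : ℂ) < (ε : ℂ) := by exact_mod_cast hε
    have hεB : ((ε : ℂ) • B).PosDef := hB.smul hεc
    have hM : (Matrix.fromBlocks S 0 0 ((ε : ℂ) • B)).PosDef := by
      have hinv : Invertible ((ε : ℂ) • B) := hεB.isUnit.invertible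
      have h1 := (Matrix.PosDef.fromBlocks₂₂ S (0 : Matrix κ₁ κ₂ ℂ) hεB).2 (by
        simpa using hS.posSemidef)
      have h2 : (Matrix.fromBlocks S 0 0 ((ε : ℂ) • B)).PosSemidef := by simpa using h1
      rw [h2.posDef_iff_det_ne_zero, Matrix.det_fromBlocks_zero₂₁]
      exact mul_ne_zero hS.det_pos.ne' hεB.det_pos.ne'
    have h1 := cap_le (fun i => Matrix.fromBlocks (a i) (b i) 0 (d i)) hM
    have e1 : (∑ i, Matrix.fromBlocks (a i) (b i) 0 (d i) *
        Matrix.fromBlocks S 0 0 ((ε : ℂ) • B) * (Matrix.fromBlocks (a i) (b i) 0 (d i))ᴴ) =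
        Matrix.fromBlocks 1 0 0 ((ε : ℂ) • 1) *
          Matrix.fromBlocks (X + (ε : ℂ) • G11) ((ε : ℂ) • G12) G21 Z := by
      rw [Matrix.fromBlocks_multiply, hX, hG11, hG12, hG21, hZ]
      simp only [Matrix.one_mul, Matrix.zero_mul, add_zero, zero_add, Matrix.smul_mul,
        Finset.smul_sum, ← Finset.sum_add_distrib]
      rw [← sum_fromBlocks]
      refine Finset.sum_congr rfl fun i _ => ?_
      rw [Matrix.fromBlocks_conjTranspose, Matrix.fromBlocks_multiply, Matrix.fromBlocks_multiply]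
      simp
    have e2 : (Matrix.fromBlocks (1 : Matrix κ₁ κ₁ ℂ) 0 0 ((ε : ℂ) • (1 : Matrix κ₂ κ₂ ℂ))).det =
        ((ε ^ n : ℝ) : ℂ) := by
      rw [Matrix.det_fromBlocks_zero₂₁, Matrix.det_smul, Matrix.det_one, Matrix.det_one, one_mul,
        mul_one]
      push_cast
      rfl
    have e3 : (Matrix.fromBlocks S 0 0 ((ε : ℂ) • B)).det.re = ε ^ n * (S.det.re * B.det.re) := by
      rw [Matrix.det_fromBlocks_zero₂₁, Matrix.det_smul, det_eq_re hS.posSemidef,
        det_eq_re hB.posSemidef, ← Complex.ofReal_pow, Complex.re_ofReal_mul,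
        Complex.re_ofReal_mul]
      simp only [Complex.ofReal_re]
      ring
    rw [e1, Matrix.det_mul, e2, Complex.re_ofReal_mul, e3] at h1
    have hεn : 0 < ε ^ n := pow_pos hε n
    have h2 : ε ^ n * (cap (fun i => Matrix.fromBlocks (a i) (b i) 0 (d i)) *
        (S.det.re * B.det.re)) ≤ ε ^ n *
        (Matrix.fromBlocks (X + (ε : ℂ) • G11) ((ε : ℂ) • G12) G21 Z).det.re := by
      linarith
    exact le_of_mul_le_mul_left h2 hεn
  -- limit
  have hcont : Continuous fun ε : ℝ =>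
      (Matrix.fromBlocks (X + (ε : ℂ) • G11) ((ε : ℂ) • G12) G21 Z).det.re := by
    refine Complex.continuous_re.comp (Continuous.matrix_det ?_)
    refine Continuous.matrix_fromBlocks ?_ ?_ continuous_const continuous_const
    · fun_prop
    · fun_prop
  have hlim : Filter.Tendsto (fun ε : ℝ =>
      (Matrix.fromBlocks (X + (ε : ℂ) • G11) ((ε : ℂ) • G12) G21 Z).det.re) (𝓝[>] 0)
      (𝓝 (X.det.re * Z.det.re)) := by
    have h1 := (hcont.tendsto 0).mono_left (nhdsWithin_le_nhds (s := Set.Ioi (0 : ℝ)))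
    have e1 : (Matrix.fromBlocks (X + ((0 : ℝ) : ℂ) • G11) (((0 : ℝ) : ℂ) • G12) G21 Z).det.re =
        X.det.re * Z.det.re := by
      rw [Complex.ofReal_zero, zero_smul, zero_smul, add_zero, Matrix.det_fromBlocks_zero₁₂,
        det_eq_re hXp, Complex.re_ofReal_mul, Complex.ofReal_re]
    rw [e1] at h1
    exact h1
  refine ge_of_tendsto hlim ?_
  filter_upwards [self_mem_nhdsWithin] with ε hε
  exact key ε hε

theorem cap_fromBlocks (a : ν → Matrix κ₁ κ₁ ℂ) (b : ν → Matrix κ₁ κ₂ ℂ)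
    (d : ν → Matrix κ₂ κ₂ ℂ) :
    cap (fun i => Matrix.fromBlocks (a i) (b i) 0 (d i)) = cap a * cap d := by
  apply le_antisymm
  · apply le_mul_of_forall (vals_nonempty a) (vals_nonempty d) (fun _ h => vals_nonneg h)
      (fun _ h => vals_nonneg h)
    rintro _ ⟨S, hS, rfl⟩ _ ⟨B, hB, rfl⟩
    rw [div_mul_div_comm, le_div_iff₀ (mul_pos (det_re_pos hS) (det_re_pos hB))]
    exact upper_bd a b d hS hB
  · refine le_csInf (vals_nonempty _) ?_
    rintro _ ⟨M, hM, rfl⟩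
    rw [le_div_iff₀ (det_re_pos hM)]
    exact lower_bd a b d hM

end Pool.Agent.helper16.GUE
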