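import Mathlib
import Pool.Agent.helper97.GUE.Defs

set_option autoImplicit false
set_option linter.unusedSectionVars false
open scoped Matrix ComplexOrder

namespace Pool.Agent.helper16.GUE

open Pool.Agent.helper97.GUE

variable {κ ν : Type*} [Fintype κ] [DecidableEq κ] [Fintype ν]

/-- squared Frobenius norm -/
noncomputable def fro (M : Matrix κ κ ℂ) : ℝ := ∑ j, ∑ k, ‖M j k‖ ^ 2

theorem fro_nonneg (M : Matrix κ κ ℂ) : 0 ≤ fro M :=
  Finset.sum_nonneg fun _ _ => Finset.sum_nonneg fun _ _ => sq_nonneg _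

theorem trace_fro (M : Matrix κ κ ℂ) : (Mᴴ * M).trace = (fro M : ℂ) := by
  rw [Matrix.trace, fro, Finset.sum_comm]
  push_cast
  refine Finset.sum_congr rfl fun j _ => ?_
  rw [Matrix.diag_apply, Matrix.mul_apply]
  refine Finset.sum_congr rfl fun k _ => ?_
  rw [Matrix.conjTranspose_apply, ← starRingEnd_apply, Complex.conj_mul']

theorem trace_fro' (M : Matrix κ κ ℂ) : (M * Mᴴ).trace = (fro M : ℂ) := by
  rw [Matrix.trace_mul_comm, trace_fro]

theorem fro_eq_of_left {M M' : Matrix κ κ ℂ} (h : Mᴴ * M = M'ᴴ * M') : fro M = fro M' := by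
  have := congrArg Matrix.trace h
  rw [trace_fro, trace_fro] at this
  exact_mod_cast this

theorem fro_eq_of_right {M M' : Matrix κ κ ℂ} (h : M * Mᴴ = M' * M'ᴴ) : fro M = fro M' := by
  have := congrArg Matrix.trace h
  rw [trace_fro', trace_fro'] at this
  exact_mod_cast this

theorem continuous_fro : Continuous (fro : Matrix κ κ ℂ → ℝ) := by
  unfold fro
  fun_prop

theorem norm_le_of_fro {M : Matrix κ κ ℂ} {R : ℝ} (h : fro M ≤ R) (j k : κ) : ‖M j k‖ ^ 2 ≤ R := by
  refine le_trans ?_ h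
  have h1 : ‖M j k‖ ^ 2 ≤ ∑ k, ‖M j k‖ ^ 2 :=
    Finset.single_le_sum (f := fun k => ‖M j k‖ ^ 2) (fun _ _ => sq_nonneg _) (Finset.mem_univ k)
  exact h1.trans (Finset.single_le_sum (f := fun j => ∑ k, ‖M j k‖ ^ 2)
    (fun _ _ => Finset.sum_nonneg fun _ _ => sq_nonneg _) (Finset.mem_univ j))

/-- spectral decomposition of `pᴴ p` -/
theorem exists_left (p : Matrix κ κ ℂ) : ∃ (U : Matrix κ κ ℂ) (lam : κ → ℝ), Uᴴ * U = 1 ∧
    U * Uᴴ = 1 ∧ (∀ j, 0 ≤ lam j) ∧ ∏ j, lam j = ‖p.det‖ ^ 2 ∧ ∑ j, lam j = fro p ∧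
    ∀ X : Matrix κ κ ℂ, fro (p * X) = fro (Matrix.diagonal (fun j => (Real.sqrt (lam j) : ℂ)) *
      Uᴴ * X) := by
  have hP : (pᴴ * p).PosSemidef := Matrix.posSemidef_conjTranspose_mul_self p
  set hA := hP.1
  set U : Matrix κ κ ℂ := (hA.eigenvectorUnitary : Matrix κ κ ℂ) with hU
  have hU1 : Uᴴ * U = 1 := Unitary.coe_star_mul_self _
  have hU2 : U * Uᴴ = 1 := Unitary.coe_mul_star_self _
  have hspec : pᴴ * p = U * Matrix.diagonal (fun j => (hA.eigenvalues j : ℂ)) * Uᴴ := by
    have := hA.spectral_theorem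
    rw [Unitary.conjStarAlgAut_apply] at this
    exact this
  refine ⟨U, hA.eigenvalues, hU1, hU2, hP.eigenvalues_nonneg, ?_, ?_, ?_⟩
  · have h1 := hA.det_eq_prod_eigenvalues
    rw [Matrix.det_mul, Matrix.det_conjTranspose, ← starRingEnd_apply, Complex.conj_mul'] at h1
    apply Complex.ofReal_injective
    rw [Complex.ofReal_prod, Complex.ofReal_pow]
    exact h1.symm
  · have h1 := congrArg Matrix.trace hspec
    rw [trace_fro, Matrix.mul_assoc, Matrix.trace_mul_comm, Matrix.mul_assoc, hU1, Matrix.mul_one,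
      Matrix.trace_diagonal] at h1
    exact_mod_cast h1.symm
  · intro X
    apply fro_eq_of_left
    rw [Matrix.conjTranspose_mul, Matrix.conjTranspose_mul, Matrix.conjTranspose_mul,
      Matrix.conjTranspose_conjTranspose, Matrix.diagonal_conjTranspose]
    have hd : Matrix.diagonal (star (fun j => (Real.sqrt (hA.eigenvalues j) : ℂ))) *
        Matrix.diagonal (fun j => (Real.sqrt (hA.eigenvalues j) : ℂ)) =
        Matrix.diagonal (fun j => (hA.eigenvalues j : ℂ)) := by
      rw [Matrix.diagonal_mul_diagonal]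
      congr 1
      ext j
      simp only [Pi.star_apply, Complex.star_def, Complex.conj_ofReal]
      rw [← Complex.ofReal_mul, Real.mul_self_sqrt (hP.eigenvalues_nonneg j)]
    calc Xᴴ * pᴴ * (p * X) = Xᴴ * (pᴴ * p) * X := by simp only [Matrix.mul_assoc]
      _ = Xᴴ * (U * Matrix.diagonal (fun j => (hA.eigenvalues j : ℂ)) * Uᴴ) * X :=
        congrArg (fun M => Xᴴ * M * X) hspec
      _ = _ := by
        rw [← hd]
        simp only [Matrix.mul_assoc]

theorem fro_conjTranspose (M : Matrix κ κ ℂ) : fro Mᴴ = fro M := by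
  rw [fro, fro, Finset.sum_comm]
  refine Finset.sum_congr rfl fun j _ => Finset.sum_congr rfl fun k _ => ?_
  rw [Matrix.conjTranspose_apply, norm_star]

/-- spectral decomposition of `q qᴴ` -/
theorem exists_right (q : Matrix κ κ ℂ) : ∃ (W : Matrix κ κ ℂ) (mu : κ → ℝ), Wᴴ * W = 1 ∧
    W * Wᴴ = 1 ∧ (∀ j, 0 ≤ mu j) ∧ ∏ j, mu j = ‖q.det‖ ^ 2 ∧ ∑ j, mu j = fro q ∧
    ∀ X : Matrix κ κ ℂ, fro (X * q) = fro (X * W *
      Matrix.diagonal (fun j => (Real.sqrt (mu j) : ℂ))) := by
  obtain ⟨W, mu, h1, h2, h3, h4, h5, h6⟩ := exists_left qᴴ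
  refine ⟨W, mu, h1, h2, h3, ?_, ?_, ?_⟩
  · rw [h4, Matrix.det_conjTranspose, norm_star]
  · rw [h5, fro_conjTranspose]
  · intro X
    rw [← fro_conjTranspose, Matrix.conjTranspose_mul, h6, ← fro_conjTranspose]
    congr 1
    rw [Matrix.conjTranspose_mul, Matrix.conjTranspose_mul, Matrix.conjTranspose_conjTranspose,
      Matrix.conjTranspose_conjTranspose, Matrix.diagonal_conjTranspose, ← Matrix.mul_assoc]
    congr 2
    ext j
    simp

/-- the functional -/
noncomputable def phi (a : ν → Matrix κ κ ℂ) (p q : Matrix κ κ ℂ) : ℝ := ∑ i, fro (p * a i * q)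

theorem phi_nonneg (a : ν → Matrix κ κ ℂ) (p q : Matrix κ κ ℂ) : 0 ≤ phi a p q :=
  Finset.sum_nonneg fun _ _ => fro_nonneg _

/-- the block mass -/
noncomputable def blk (a : ν → Matrix κ κ ℂ) (U W : Matrix κ κ ℂ) (j k : κ) : ℝ :=
  ∑ i, ‖(Uᴴ * a i * W) j k‖ ^ 2

theorem phi_eq (a : ν → Matrix κ κ ℂ) (p q : Matrix κ κ ℂ) :
    ∃ (U W : Matrix κ κ ℂ) (lam mu : κ → ℝ), Uᴴ * U = 1 ∧ Wᴴ * W = 1 ∧ (∀ j, 0 ≤ lam j) ∧
      (∀ j, 0 ≤ mu j) ∧ ∏ j, lam j = ‖p.det‖ ^ 2 ∧ ∏ j, mu j = ‖q.det‖ ^ 2 ∧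
      ∑ j, lam j = fro p ∧ ∑ j, mu j = fro q ∧
      phi a p q = ∑ j, ∑ k, lam j * mu k * blk a U W j k := by
  obtain ⟨U, lam, h1, -, h3, h4, h5, h6⟩ := exists_left p
  obtain ⟨W, mu, g1, -, g3, g4, g5, g6⟩ := exists_right q
  refine ⟨U, W, lam, mu, h1, g1, h3, g3, h4, g4, h5, g5, ?_⟩
  rw [phi]
  have key : ∀ i, fro (p * a i * q) = ∑ j, ∑ k, lam j * mu k * ‖(Uᴴ * a i * W) j k‖ ^ 2 := by
    intro i
    rw [g6, Matrix.mul_assoc, Matrix.mul_assoc, h6, fro]
    refine Finset.sum_congr rfl fun j _ => Finset.sum_congr rfl fun k _ => ?_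
    have : Matrix.diagonal (fun j => (Real.sqrt (lam j) : ℂ)) * Uᴴ * (a i * (W *
        Matrix.diagonal (fun j => (Real.sqrt (mu j) : ℂ)))) =
        Matrix.diagonal (fun j => (Real.sqrt (lam j) : ℂ)) * (Uᴴ * a i * W) *
        Matrix.diagonal (fun j => (Real.sqrt (mu j) : ℂ)) := by
      simp only [Matrix.mul_assoc]
    rw [this, Matrix.mul_diagonal, Matrix.diagonal_mul, norm_mul, norm_mul, mul_pow, mul_pow,
      Complex.norm_real, Complex.norm_real, Real.norm_eq_abs, Real.norm_eq_abs, sq_abs, sq_abs,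
      Real.sq_sqrt (h3 j), Real.sq_sqrt (g3 k)]
    ring
  simp only [key, blk, Finset.mul_sum]
  rw [Finset.sum_comm]
  refine Finset.sum_congr rfl fun j _ => ?_
  rw [Finset.sum_comm]

theorem blk_nonneg (a : ν → Matrix κ κ ℂ) (U W : Matrix κ κ ℂ) (j k : κ) :
    0 ≤ blk a U W j k := Finset.sum_nonneg fun _ _ => sq_nonneg _

theorem blk_pos (a : ν → Matrix κ κ ℂ) (ha : Irr a) {U W : Matrix κ κ ℂ} (hU : Uᴴ * U = 1)
    (hW : Wᴴ * W = 1) {S T : Finset κ} (hS : S.Nonempty) (hT : T.Nonempty)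
    (hST : S.card + T.card = Fintype.card κ) : 0 < ∑ j ∈ S, ∑ k ∈ T, blk a U W j k := by
  by_contra hcon
  push Not at hcon
  have h0 : ∑ j ∈ S, ∑ k ∈ T, blk a U W j k = 0 :=
    le_antisymm hcon (Finset.sum_nonneg fun _ _ => Finset.sum_nonneg fun _ _ => blk_nonneg _ _ _ _ _)
  have hz : ∀ i, ∀ j ∈ S, ∀ k ∈ T, (Uᴴ * a i * W) j k = 0 := by
    intro i j hj k hk
    have h1 := (Finset.sum_eq_zero_iff_of_nonneg
      (fun j _ => Finset.sum_nonneg fun k _ => blk_nonneg a U W j k)).1 h0 j hj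
    have h2 := (Finset.sum_eq_zero_iff_of_nonneg (fun k _ => blk_nonneg a U W j k)).1 h1 k hk
    have h3 := (Finset.sum_eq_zero_iff_of_nonneg (fun i _ => sq_nonneg _)).1 h2 i
      (Finset.mem_univ i)
    simpa using h3
  have hU' : U * Uᴴ = 1 := mul_eq_one_comm.1 hU
  have hWu : IsUnit W := IsUnit.of_mul_eq_one _ (mul_eq_one_comm.1 hW)
  have hlin : LinearIndependent ℂ W.col := Matrix.linearIndependent_cols_iff_isUnit.2 hWu
  set V : Submodule ℂ (κ → ℂ) := Submodule.span ℂ (Set.range fun k : T => W.col k) with hV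
  have hVcard : Module.finrank ℂ V = T.card := by
    have h1 := finrank_span_eq_card (R := ℂ)
      (hlin.comp (fun k : T => (k : κ)) Subtype.val_injective)
    rw [Fintype.card_coe] at h1
    exact h1
  set V' : Submodule ℂ (κ → ℂ) := Submodule.span ℂ (Set.range fun j : (Sᶜ : Finset κ) => U.col j)
    with hV'
  have hV'card : Module.finrank ℂ V' ≤ (Sᶜ : Finset κ).card := by
    have := finrank_range_le_card (R := ℂ) (fun j : (Sᶜ : Finset κ) => U.col j)
    rwa [Fintype.card_coe] at this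
  have hle : (⨆ i, V.map (Matrix.toLin' (a i)) : Submodule ℂ (κ → ℂ)) ≤ V' := by
    refine iSup_le fun i => ?_
    rw [hV, Submodule.map_span, Submodule.span_le]
    rintro _ ⟨_, ⟨k, rfl⟩, rfl⟩
    have h1 : Matrix.toLin' (a i) (W.col k) = ∑ j, (Uᴴ * a i * W) j k • U.col j := by
      have e1 : a i * W = U * (Uᴴ * a i * W) := by
        rw [Matrix.mul_assoc, ← Matrix.mul_assoc, hU', Matrix.one_mul]
      ext l
      have e2 := congrFun (congrFun e1 l) k
      rw [Matrix.toLin'_apply]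
      have e3 : (a i *ᵥ W.col k) l = (a i * W) l k := rfl
      rw [e3, e2, Matrix.mul_apply, Finset.sum_apply]
      refine Finset.sum_congr rfl fun j _ => ?_
      rw [Pi.smul_apply, smul_eq_mul, mul_comm]
      rfl
    show Matrix.toLin' (a i) (W.col k) ∈ V'
    rw [h1]
    refine Submodule.sum_mem _ fun j _ => ?_
    by_cases hj : j ∈ S
    · rw [hz i j hj k k.2, zero_smul]
      exact Submodule.zero_mem _
    · exact Submodule.smul_mem _ _ (Submodule.subset_span ⟨⟨j, Finset.mem_compl.2 hj⟩, rfl⟩)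
  have hSc : (Sᶜ : Finset κ).card = T.card := by
    rw [Finset.card_compl]; omega
  have hlt := ha.2 V (by
    intro h
    rw [h, finrank_bot] at hVcard
    exact hT.card_pos.ne hVcard) (by
    intro h
    rw [h, finrank_top, Module.finrank_fintype_fun_eq_card] at hVcard
    have := hS.card_pos
    omega)
  have := Submodule.finrank_mono hle
  omega

/-- the set of unitary matrices is compact -/
theorem isCompact_unitary : IsCompact {U : Matrix κ κ ℂ | Uᴴ * U = 1} := by
  have hc : IsCompact ((Set.pi Set.univ fun _ : κ => Set.pi Set.univ fun _ : κ =>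
      Metric.closedBall (0 : ℂ) 1) : Set (Matrix κ κ ℂ)) :=
    isCompact_univ_pi fun _ => isCompact_univ_pi fun _ => isCompact_closedBall _ _
  refine hc.of_isClosed_subset ?_ ?_
  · exact isClosed_eq (by fun_prop) continuous_const
  · intro (U : Matrix κ κ ℂ) hU
    have hU1 : Uᴴ * U = 1 := hU
    refine fun j _ k _ => mem_closedBall_zero_iff.2 ?_
    have h1 := congrFun (congrFun hU1 k) k
    rw [Matrix.mul_apply, Matrix.one_apply_eq] at h1
    have h2 : ∑ l, ‖U l k‖ ^ 2 = 1 := by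
      apply Complex.ofReal_injective
      rw [Complex.ofReal_sum, Complex.ofReal_one, ← h1]
      refine Finset.sum_congr rfl fun l _ => ?_
      rw [Matrix.conjTranspose_apply, ← starRingEnd_apply, Complex.conj_mul', Complex.ofReal_pow]
    have h3 : ‖U j k‖ ^ 2 ≤ 1 := by
      rw [← h2]
      exact Finset.single_le_sum (f := fun l => ‖U l k‖ ^ 2) (fun _ _ => sq_nonneg _)
        (Finset.mem_univ j)
    exact (sq_le_one_iff₀ (norm_nonneg _)).1 h3

/-- block mass as a function on pairs -/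
noncomputable def blkF (a : ν → Matrix κ κ ℂ) (S T : Finset κ) (UW : Matrix κ κ ℂ × Matrix κ κ ℂ) :
    ℝ := ∑ j ∈ S, ∑ k ∈ T, blk a UW.1 UW.2 j k

theorem continuous_blkF (a : ν → Matrix κ κ ℂ) (S T : Finset κ) : Continuous (blkF a S T) := by
  unfold blkF blk
  refine continuous_finsetSum _ fun j _ => continuous_finsetSum _ fun k _ =>
    continuous_finsetSum _ fun i _ => ?_
  refine (Continuous.norm ?_).pow 2
  have h1 : Continuous fun UW : Matrix κ κ ℂ × Matrix κ κ ℂ => UW.1ᴴ * a i * UW.2 :=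
    ((continuous_fst.matrix_conjTranspose).matrix_mul continuous_const).matrix_mul continuous_snd
  exact h1.matrix_elem j k

theorem exists_blk_lb (a : ν → Matrix κ κ ℂ) (ha : Irr a) : ∃ c : ℝ, 0 < c ∧
    ∀ U W : Matrix κ κ ℂ, Uᴴ * U = 1 → Wᴴ * W = 1 → ∀ S T : Finset κ, S.Nonempty → T.Nonempty →
      S.card + T.card = Fintype.card κ → c ≤ ∑ j ∈ S, ∑ k ∈ T, blk a U W j k := by
  classical
  set K : Set (Matrix κ κ ℂ × Matrix κ κ ℂ) :=
    {U : Matrix κ κ ℂ | Uᴴ * U = 1} ×ˢ {W : Matrix κ κ ℂ | Wᴴ * W = 1} with hK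
  have hcomp : IsCompact K := isCompact_unitary.prod isCompact_unitary
  have hne : K.Nonempty := ⟨(1, 1), by simp [hK]⟩
  have key : ∀ ST : Finset κ × Finset κ, ∃ c : ℝ, 0 < c ∧
      ∀ UW ∈ K, ST.1.Nonempty → ST.2.Nonempty →
      ST.1.card + ST.2.card = Fintype.card κ → c ≤ blkF a ST.1 ST.2 UW := by
    rintro ⟨S, T⟩
    by_cases h : S.Nonempty ∧ T.Nonempty ∧ S.card + T.card = Fintype.card κ
    · obtain ⟨h1, h2, h3⟩ := h
      obtain ⟨UW₀, hmem, hmin⟩ := hcomp.exists_isMinOn hne (continuous_blkF a S T).continuousOn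
      exact ⟨blkF a S T UW₀, blk_pos a ha hmem.1 hmem.2 h1 h2 h3, fun UW hUW _ _ _ => hmin hUW⟩
    · exact ⟨1, one_pos, fun UW _ h1 h2 h3 => absurd ⟨h1, h2, h3⟩ h⟩
  choose c hc1 hc2 using key
  obtain ⟨ST₀, -, hmin⟩ := Finset.exists_min_image (Finset.univ : Finset (Finset κ × Finset κ)) c
    ⟨(∅, ∅), Finset.mem_univ _⟩
  refine ⟨c ST₀, hc1 _, ?_⟩
  intro U W hU hW S T h1 h2 h3
  exact (hmin (S, T) (Finset.mem_univ _)).trans (hc2 (S, T) (U, W) ⟨hU, hW⟩ h1 h2 h3)

theorem seq_bound {n : ℕ} {x y : Fin (n + 1) → ℝ} (hx : Antitone x) (hy : Antitone y)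
    (hx0 : ∀ i, 0 ≤ x i) (hy0 : ∀ i, 0 ≤ y i) (hx1 : ∏ i, x i = 1) (hy1 : ∏ i, y i = 1)
    {X : ℝ} (hX : 1 ≤ X) (h : ∀ i j : Fin (n + 1), i.val + j.val + 2 = n + 1 → x i * y j ≤ X) :
    ∀ i, x i ≤ X ^ (n + 1) := by
  have hX0 : 0 ≤ X := by linarith
  have hprod : (∏ i : Fin n, x i.castSucc) * (∏ i : Fin n, y i.castSucc) ≤ X ^ n := by
    have e1 : (∏ i : Fin n, y i.castSucc) = ∏ i : Fin n, y i.rev.castSucc :=
      (Equiv.prod_comp Fin.revPerm (fun i : Fin n => y i.castSucc)).symm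
    rw [e1, ← Finset.prod_mul_distrib]
    calc ∏ i : Fin n, x i.castSucc * y i.rev.castSucc ≤ ∏ _i : Fin n, X := by
          refine Finset.prod_le_prod (fun i _ => mul_nonneg (hx0 _) (hy0 _)) fun i _ => ?_
          apply h
          have := i.isLt
          rw [Fin.val_castSucc, Fin.val_castSucc, Fin.val_rev]
          omega
      _ = X ^ n := by rw [Finset.prod_const, Finset.card_univ, Fintype.card_fin]
  have hone : 1 ≤ X ^ n * (x (Fin.last n) * y (Fin.last n)) := by
    rw [Fin.prod_univ_castSucc] at hx1 hy1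
    calc (1 : ℝ) = ((∏ i : Fin n, x i.castSucc) * x (Fin.last n)) *
          ((∏ i : Fin n, y i.castSucc) * y (Fin.last n)) := by rw [hx1, hy1, one_mul]
      _ = ((∏ i : Fin n, x i.castSucc) * (∏ i : Fin n, y i.castSucc)) *
          (x (Fin.last n) * y (Fin.last n)) := by ring
      _ ≤ _ := mul_le_mul_of_nonneg_right hprod (mul_nonneg (hx0 _) (hy0 _))
  have hlast : x (Fin.last n) ≤ 1 := by
    by_contra hcon
    push Not at hcon
    have : (1 : ℝ) < ∏ i, x i := by
      calc (1 : ℝ) < x (Fin.last n) ^ (n + 1) := one_lt_pow₀ hcon (Nat.succ_ne_zero n)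
        _ = ∏ _i : Fin (n + 1), x (Fin.last n) := by
          rw [Finset.prod_const, Finset.card_univ, Fintype.card_fin]
        _ ≤ ∏ i, x i := Finset.prod_le_prod (fun _ _ => hx0 _) fun i _ => hx (Fin.le_last i)
    rw [hx1] at this
    exact lt_irrefl _ this
  have h0 : x 0 ≤ X ^ (n + 1) := by
    rcases Nat.eq_zero_or_pos n with hn | hn
    · subst hn
      have : x 0 = 1 := by simpa using hx1
      rw [this, zero_add, pow_one]
      exact hX
    · have h1 : x 0 * y (Fin.last n) ≤ X := by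
        have h2 := h 0 ⟨n - 1, by omega⟩ (by simp; omega)
        refine le_trans (mul_le_mul_of_nonneg_left (hy ?_) (hx0 _)) h2
        rw [Fin.le_def, Fin.val_last]
        show n - 1 ≤ n
        omega
      calc x 0 = x 0 * 1 := (mul_one _).symm
        _ ≤ x 0 * (X ^ n * (x (Fin.last n) * y (Fin.last n))) :=
          mul_le_mul_of_nonneg_left hone (hx0 _)
        _ = X ^ n * x (Fin.last n) * (x 0 * y (Fin.last n)) := by ring
        _ ≤ X ^ n * x (Fin.last n) * X :=
          mul_le_mul_of_nonneg_left h1 (mul_nonneg (pow_nonneg hX0 _) (hx0 _))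
        _ ≤ X ^ n * 1 * X := by gcongr
        _ = X ^ (n + 1) := by ring
  intro i
  exact (hx (Fin.zero_le i)).trans h0

/-- sorting -/
theorem exists_sort {n : ℕ} (hn : Fintype.card κ = n) (lam : κ → ℝ) :
    ∃ e : Fin n ≃ κ, Antitone (lam ∘ e) := by
  subst hn
  set f : Fin (Fintype.card κ) → ℝ := fun i => - lam ((Fintype.equivFin κ).symm i) with hf
  refine ⟨(Tuple.sort f).trans (Fintype.equivFin κ).symm, ?_⟩
  intro i j hij
  have := Tuple.monotone_sort f hij
  simp only [hf, Function.comp_apply] at this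
  simp only [Function.comp_apply, Equiv.trans_apply]
  linarith

theorem coercive (a : ν → Matrix κ κ ℂ) (ha : Irr a) [Nonempty κ] (B : ℝ) : ∃ R : ℝ,
    ∀ p q : Matrix κ κ ℂ, p.det = 1 → q.det = 1 → phi a p q ≤ B → fro p ≤ R ∧ fro q ≤ R := by
  classical
  obtain ⟨c, hc, hlb⟩ := exists_blk_lb a ha
  obtain ⟨n, hn⟩ : ∃ n, Fintype.card κ = n + 1 :=
    ⟨Fintype.card κ - 1, by have := Fintype.card_pos (α := κ); omega⟩
  set X : ℝ := max (B / c) 1 with hX
  refine ⟨(n + 1) * X ^ (n + 1), ?_⟩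
  intro p q hp hq hB
  obtain ⟨U, W, lam, mu, hU, hW, hlam, hmu, hlam1, hmu1, hlams, hmus, hphi⟩ := phi_eq a p q
  rw [hp, norm_one, one_pow] at hlam1
  rw [hq, norm_one, one_pow] at hmu1
  obtain ⟨e, he⟩ := exists_sort hn lam
  obtain ⟨e', he'⟩ := exists_sort hn mu
  have hmain : ∀ i j : Fin (n + 1), i.val + j.val + 2 = n + 1 → lam (e i) * mu (e' j) ≤ X := by
    intro i j hij
    set S : Finset κ := (Finset.univ.filter fun s : Fin (n + 1) => s ≤ i).map e.toEmbedding with hS
    set T : Finset κ := (Finset.univ.filter fun s : Fin (n + 1) => s ≤ j).map e'.toEmbedding with hT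
    have hScard : S.card = i.val + 1 := by
      rw [hS, Finset.card_map]
      have : (Finset.univ.filter fun s : Fin (n + 1) => s ≤ i) = Finset.Iic i := by
        ext; simp
      rw [this, Fin.card_Iic]
    have hTcard : T.card = j.val + 1 := by
      rw [hT, Finset.card_map]
      have : (Finset.univ.filter fun s : Fin (n + 1) => s ≤ j) = Finset.Iic j := by
        ext; simp
      rw [this, Fin.card_Iic]
    have h1 := hlb U W hU hW S T (Finset.card_pos.1 (by omega)) (Finset.card_pos.1 (by omega))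
      (by omega)
    have hSle : ∀ s ∈ S, lam (e i) ≤ lam s := by
      intro s hs
      obtain ⟨s', hs', rfl⟩ := Finset.mem_map.1 hs
      exact he (Finset.mem_filter.1 hs').2
    have hTle : ∀ s ∈ T, mu (e' j) ≤ mu s := by
      intro s hs
      obtain ⟨s', hs', rfl⟩ := Finset.mem_map.1 hs
      exact he' (Finset.mem_filter.1 hs').2
    have h2 : lam (e i) * mu (e' j) * c ≤ B := by
      calc lam (e i) * mu (e' j) * c ≤ lam (e i) * mu (e' j) *
            ∑ s ∈ S, ∑ t ∈ T, blk a U W s t :=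
            mul_le_mul_of_nonneg_left h1 (mul_nonneg (hlam _) (hmu _))
        _ = ∑ s ∈ S, ∑ t ∈ T, lam (e i) * mu (e' j) * blk a U W s t := by
          simp only [Finset.mul_sum]
        _ ≤ ∑ s ∈ S, ∑ t ∈ T, lam s * mu t * blk a U W s t := by
          refine Finset.sum_le_sum fun s hs => Finset.sum_le_sum fun t ht => ?_
          refine mul_le_mul_of_nonneg_right ?_ (blk_nonneg _ _ _ _ _)
          exact mul_le_mul (hSle s hs) (hTle t ht) (hmu _) (hlam _)
        _ ≤ ∑ s, ∑ t, lam s * mu t * blk a U W s t := by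
          have hnn : ∀ s t, 0 ≤ lam s * mu t * blk a U W s t := fun s t =>
            mul_nonneg (mul_nonneg (hlam _) (hmu _)) (blk_nonneg _ _ _ _ _)
          calc ∑ s ∈ S, ∑ t ∈ T, lam s * mu t * blk a U W s t
              ≤ ∑ s ∈ S, ∑ t, lam s * mu t * blk a U W s t :=
                Finset.sum_le_sum fun s _ => Finset.sum_le_sum_of_subset_of_nonneg
                  (Finset.subset_univ _) fun t _ _ => hnn s t
            _ ≤ _ := Finset.sum_le_sum_of_subset_of_nonneg (Finset.subset_univ _)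
                  fun s _ _ => Finset.sum_nonneg fun t _ => hnn s t
        _ = phi a p q := hphi.symm
        _ ≤ B := hB
    exact ((le_div_iff₀ hc).2 h2).trans (le_max_left _ _)
  have hX1 : 1 ≤ X := le_max_right _ _
  have b1 := seq_bound (x := lam ∘ e) (y := mu ∘ e') he he' (fun _ => hlam _) (fun _ => hmu _)
    (by rw [← hlam1]; exact Equiv.prod_comp e lam) (by rw [← hmu1]; exact Equiv.prod_comp e' mu)
    hX1 hmain
  have b2 := seq_bound (x := mu ∘ e') (y := lam ∘ e) he' he (fun _ => hmu _) (fun _ => hlam _)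
    (by rw [← hmu1]; exact Equiv.prod_comp e' mu) (by rw [← hlam1]; exact Equiv.prod_comp e lam)
    hX1 (fun i j hij => by
      have := hmain j i (by omega)
      rw [mul_comm] at this
      exact this)
  have hsum : ∀ (f : κ → ℝ) (e : Fin (n + 1) ≃ κ), (∀ i, (f ∘ e) i ≤ X ^ (n + 1)) →
      ∑ j, f j ≤ (n + 1) * X ^ (n + 1) := by
    intro f e h
    rw [← Equiv.sum_comp e f]
    calc ∑ i, f (e i) ≤ ∑ _i : Fin (n + 1), X ^ (n + 1) := Finset.sum_le_sum fun i _ => h i
      _ = (n + 1) * X ^ (n + 1) := by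
        rw [Finset.sum_const, Finset.card_univ, Fintype.card_fin, nsmul_eq_mul]
        push_cast
        ring
  exact ⟨hlams ▸ hsum lam e b1, hmus ▸ hsum mu e' b2⟩

/-- existence of a minimiser -/
theorem exists_min (a : ν → Matrix κ κ ℂ) (ha : Irr a) [Nonempty κ] :
    ∃ p q : Matrix κ κ ℂ, p.det = 1 ∧ q.det = 1 ∧
      ∀ p' q' : Matrix κ κ ℂ, p'.det = 1 → q'.det = 1 → phi a p q ≤ phi a p' q' := by
  classical
  obtain ⟨R, hR⟩ := coercive a ha (phi a 1 1)
  set K : Set (Matrix κ κ ℂ × Matrix κ κ ℂ) :=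
    {pq | pq.1.det = 1 ∧ pq.2.det = 1 ∧ phi a pq.1 pq.2 ≤ phi a 1 1} with hK
  have hphi : Continuous fun pq : Matrix κ κ ℂ × Matrix κ κ ℂ => phi a pq.1 pq.2 := by
    unfold phi
    refine continuous_finsetSum _ fun i _ => continuous_fro.comp ?_
    exact (continuous_fst.matrix_mul continuous_const).matrix_mul continuous_snd
  have hball : IsCompact ((Set.pi Set.univ fun _ : κ => Set.pi Set.univ fun _ : κ =>
      Metric.closedBall (0 : ℂ) (Real.sqrt R)) : Set (Matrix κ κ ℂ)) :=
    isCompact_univ_pi fun _ => isCompact_univ_pi fun _ => isCompact_closedBall _ _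
  have hmemball : ∀ M : Matrix κ κ ℂ, fro M ≤ R →
      M ∈ ((Set.pi Set.univ fun _ : κ => Set.pi Set.univ fun _ : κ =>
      Metric.closedBall (0 : ℂ) (Real.sqrt R)) : Set (Matrix κ κ ℂ)) := by
    intro M hM
    refine fun j _ k _ => mem_closedBall_zero_iff.2 ?_
    exact Real.le_sqrt_of_sq_le (norm_le_of_fro hM j k)
  have hcomp : IsCompact K := by
    refine (hball.prod hball).of_isClosed_subset ?_ ?_
    · have h1 : IsClosed {pq : Matrix κ κ ℂ × Matrix κ κ ℂ | pq.1.det = 1} :=
        isClosed_eq (continuous_fst.matrix_det) continuous_const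
      have h2 : IsClosed {pq : Matrix κ κ ℂ × Matrix κ κ ℂ | pq.2.det = 1} :=
        isClosed_eq (continuous_snd.matrix_det) continuous_const
      have h3 : IsClosed {pq : Matrix κ κ ℂ × Matrix κ κ ℂ | phi a pq.1 pq.2 ≤ phi a 1 1} :=
        isClosed_le hphi continuous_const
      exact h1.inter (h2.inter h3)
    · intro pq hpq
      obtain ⟨h1, h2, h3⟩ := hpq
      obtain ⟨h4, h5⟩ := hR pq.1 pq.2 h1 h2 h3
      exact ⟨hmemball _ h4, hmemball _ h5⟩
  have hne : K.Nonempty := ⟨(1, 1), Matrix.det_one, Matrix.det_one, le_refl _⟩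
  obtain ⟨pq, hmem, hmin⟩ := hcomp.exists_isMinOn hne hphi.continuousOn
  have hmin' := isMinOn_iff.1 hmin
  refine ⟨pq.1, pq.2, hmem.1, hmem.2.1, ?_⟩
  intro p' q' hp' hq'
  rcases le_total (phi a p' q') (phi a 1 1) with h | h
  · have hm : (p', q') ∈ K := ⟨hp', hq', h⟩
    exact hmin' (p', q') hm
  · exact hmem.2.2.trans h

theorem quad_zero {w : ℂ} {μ : ℝ} (h : ∀ z : ℂ, 0 ≤ 2 * (z * w).re + ‖z‖ ^ 2 * μ) : w = 0 := by
  by_contra hw
  have hw' : 0 < ‖w‖ ^ 2 := by positivity
  set t : ℝ := 1 / (|μ| + 1) with ht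
  have ht0 : 0 < t := by positivity
  have h1 := h (-(t : ℂ) * (starRingEnd ℂ) w)
  have e1 : (-(t : ℂ) * (starRingEnd ℂ) w * w) = ((-(t * ‖w‖ ^ 2) : ℝ) : ℂ) := by
    rw [mul_assoc, Complex.conj_mul']
    push_cast
    ring
  have e2 : ‖-(t : ℂ) * (starRingEnd ℂ) w‖ ^ 2 = t ^ 2 * ‖w‖ ^ 2 := by
    rw [norm_mul, norm_neg, Complex.norm_real, Real.norm_eq_abs, mul_pow, sq_abs]
    congr 1
    rw [RCLike.norm_conj]
  rw [e1, e2, Complex.ofReal_re] at h1
  have h2 : t * μ ≤ 1 := by
    rw [ht, one_div, inv_mul_le_iff₀ (by positivity), mul_one]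
    linarith [le_abs_self μ]
  have h3 : t ^ 2 * ‖w‖ ^ 2 * μ ≤ t * ‖w‖ ^ 2 := by
    calc t ^ 2 * ‖w‖ ^ 2 * μ = t * ‖w‖ ^ 2 * (t * μ) := by ring
      _ ≤ t * ‖w‖ ^ 2 * 1 := mul_le_mul_of_nonneg_left h2 (by positivity)
      _ = _ := mul_one _
  have h4 : 0 < t * ‖w‖ ^ 2 := by positivity
  linarith

/-- first variation: if `∑ ‖g B_i‖² ≥ ∑ ‖B_i‖²` for all `g` of determinant one then
`∑ B_i B_iᴴ` is a scalar matrix -/
theorem scalar_of_min [Nonempty κ] (B : ν → Matrix κ κ ℂ)
    (h : ∀ g : Matrix κ κ ℂ, g.det = 1 → ∑ i, fro (B i) ≤ ∑ i, fro (g * B i)) :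
    ∃ c : ℝ, ∑ i, B i * (B i)ᴴ = (c : ℂ) • (1 : Matrix κ κ ℂ) := by
  classical
  set M : Matrix κ κ ℂ := ∑ i, B i * (B i)ᴴ with hM
  have hMH : Mᴴ = M := by
    rw [hM, Matrix.conjTranspose_sum]
    refine Finset.sum_congr rfl fun i _ => ?_
    rw [Matrix.conjTranspose_mul, Matrix.conjTranspose_conjTranspose]
  have hMjk : ∀ j k, (starRingEnd ℂ) (M j k) = M k j := by
    intro j k
    exact congrFun (congrFun hMH k) j
  have hMd : ∀ j, M j j = ((∑ i, ∑ l, ‖B i j l‖ ^ 2 : ℝ) : ℂ) := by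
    intro j
    rw [hM, Matrix.sum_apply, Complex.ofReal_sum]
    refine Finset.sum_congr rfl fun i _ => ?_
    rw [Matrix.mul_apply, Complex.ofReal_sum]
    refine Finset.sum_congr rfl fun l _ => ?_
    rw [Matrix.conjTranspose_apply, ← starRingEnd_apply, Complex.mul_conj', Complex.ofReal_pow]
  have hfro : ∀ g : Matrix κ κ ℂ, ((∑ i, fro (g * B i) : ℝ) : ℂ) = (g * M * gᴴ).trace := by
    intro g
    rw [Complex.ofReal_sum, hM, Matrix.mul_sum, Matrix.sum_mul, Matrix.trace_sum]
    refine Finset.sum_congr rfl fun i _ => ?_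
    rw [← trace_fro', Matrix.conjTranspose_mul]
    congr 1
    simp only [Matrix.mul_assoc]
  have hmin : ∀ g : Matrix κ κ ℂ, g.det = 1 → (M.trace).re ≤ ((g * M * gᴴ).trace).re := by
    intro g hg
    have h1 := hfro g
    have h2 := hfro 1
    rw [Matrix.one_mul, Matrix.conjTranspose_one, Matrix.mul_one] at h2
    rw [← h1, ← h2, Complex.ofReal_re, Complex.ofReal_re]
    simpa using h g hg
  -- off diagonal
  have hoff : ∀ j k, j ≠ k → M k j = 0 := by
    intro j k hjk
    apply quad_zero (μ := (M k k).re)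
    intro z
    have h1 := hmin (Matrix.transvection j k z) (Matrix.det_transvection_of_ne j k hjk z)
    have h2 : (Matrix.transvection j k z * M * (Matrix.transvection j k z)ᴴ).trace =
        M.trace + z * M k j + (starRingEnd ℂ) (z * M k j) + (starRingEnd ℂ) z * z * M k k := by
      rw [Matrix.transvection, Matrix.conjTranspose_add, Matrix.conjTranspose_one,
        Matrix.conjTranspose_single, Matrix.add_mul, Matrix.add_mul, Matrix.mul_add, Matrix.mul_add,
        Matrix.one_mul, Matrix.mul_one, Matrix.mul_one, Matrix.trace_add, Matrix.trace_add,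
        Matrix.trace_add]
      have e1 : (Matrix.single j k z * M).trace = z * M k j := by
        rw [Matrix.trace_single_mul, smul_eq_mul]
      have e2 : (M * Matrix.single k j (star z)).trace = (starRingEnd ℂ) (z * M k j) := by
        rw [Matrix.trace_mul_single, map_mul, hMjk]
        rw [← starRingEnd_apply]
        simp [mul_comm]
      have e3 : (Matrix.single j k z * M * Matrix.single k j (star z)).trace =
          (starRingEnd ℂ) z * z * M k k := by
        rw [Matrix.mul_assoc, Matrix.trace_single_mul, Matrix.mul_single_apply_same]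
        rw [← starRingEnd_apply, smul_eq_mul]
        ring
      rw [e1, e2, e3]
      ring
    rw [h2, Complex.conj_mul'] at h1
    simp only [Complex.add_re, Complex.conj_re] at h1
    have h3 : (((‖z‖ : ℂ)) ^ 2 * M k k).re = ‖z‖ ^ 2 * (M k k).re := by
      rw [← Complex.ofReal_pow, Complex.re_ofReal_mul]
    rw [h3] at h1
    linarith
  have hdiag : ∀ j k, j ≠ k → (M k k).re ≤ (M j j).re := by
    intro j k hjk
    by_contra hcon
    push Not at hcon
    have hα : 0 ≤ (M j j).re := by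
      rw [hMd, Complex.ofReal_re]
      positivity
    set α := (M j j).re with hαdef
    set β := (M k k).re with hβdef
    have hineq : ∀ s : ℝ, 0 < s → 0 ≤ (s ^ 2 - 1) * α + (s⁻¹ ^ 2 - 1) * β := by
      intro s hs
      set d : κ → ℝ := fun l => (if l = j then s else 1) * (if l = k then s⁻¹ else 1) with hd
      have hdet : (Matrix.diagonal fun l => (d l : ℂ)).det = 1 := by
        rw [Matrix.det_diagonal, ← Complex.ofReal_prod, hd, Finset.prod_mul_distrib,
          Finset.prod_ite_eq', Finset.prod_ite_eq', if_pos (Finset.mem_univ _),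
          if_pos (Finset.mem_univ _), mul_inv_cancel₀ hs.ne', Complex.ofReal_one]
      have h1 := hmin _ hdet
      have h2 : (Matrix.diagonal (fun l => (d l : ℂ)) * M *
          (Matrix.diagonal fun l => (d l : ℂ))ᴴ).trace = ∑ l, ((d l) ^ 2 : ℝ) * M l l := by
        rw [Matrix.trace]
        refine Finset.sum_congr rfl fun l _ => ?_
        rw [Matrix.diag_apply, Matrix.diagonal_conjTranspose, Matrix.mul_diagonal,
          Matrix.diagonal_mul, Pi.star_apply, ← starRingEnd_apply, Complex.conj_ofReal]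
        push_cast
        ring
      rw [h2, Matrix.trace, Complex.re_sum, Complex.re_sum] at h1
      simp only [Complex.re_ofReal_mul, Matrix.diag_apply] at h1
      have h3 : ∑ l, d l ^ 2 * (M l l).re - ∑ l, (M l l).re =
          (s ^ 2 - 1) * α + (s⁻¹ ^ 2 - 1) * β := by
        rw [← Finset.sum_sub_distrib]
        have : ∀ l, d l ^ 2 * (M l l).re - (M l l).re =
            (if l = j then (s ^ 2 - 1) * (M l l).re else 0) +
            (if l = k then (s⁻¹ ^ 2 - 1) * (M l l).re else 0) := by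
          intro l
          simp only [hd]
          by_cases hlj : l = j
          · have hlk : l ≠ k := by rw [hlj]; exact hjk
            rw [if_pos hlj, if_neg hlk, if_pos hlj, if_neg hlk]
            ring
          · by_cases hlk : l = k
            · rw [if_neg hlj, if_pos hlk, if_neg hlj, if_pos hlk]
              ring
            · rw [if_neg hlj, if_neg hlk, if_neg hlj, if_neg hlk]
              ring
        simp only [this, Finset.sum_add_distrib]
        rw [Finset.sum_ite_eq', Finset.sum_ite_eq', if_pos (Finset.mem_univ _),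
          if_pos (Finset.mem_univ _)]
      linarith
    -- choose `s² = u`
    set u : ℝ := 1 + (β - α) / (2 * (α + 1)) with hu
    have hβα : 0 < β - α := by linarith
    have hu1 : 1 < u := by
      have : 0 < (β - α) / (2 * (α + 1)) := by positivity
      linarith
    have h1 := hineq (Real.sqrt u) (Real.sqrt_pos.2 (by linarith))
    rw [Real.sq_sqrt (by linarith), inv_pow, Real.sq_sqrt (by linarith)] at h1
    have h2 : α * u < β := by
      have h3 : α * ((β - α) / (2 * (α + 1))) < β - α := by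
        rw [← mul_div_assoc, div_lt_iff₀ (by positivity)]
        nlinarith
      rw [hu, mul_add, mul_one]
      linarith
    have h3 : 0 ≤ u * ((u - 1) * α + (u⁻¹ - 1) * β) := mul_nonneg (by linarith) h1
    have h4 : u * ((u - 1) * α + (u⁻¹ - 1) * β) = (u - 1) * (α * u - β) := by
      have : u ≠ 0 := by linarith
      field_simp
      ring
    rw [h4] at h3
    have h5 : (u - 1) * (α * u - β) < 0 := mul_neg_of_pos_of_neg (by linarith) (by linarith)
    linarith
  obtain ⟨j0⟩ := ‹Nonempty κ›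
  refine ⟨(M j0 j0).re, ?_⟩
  ext j k
  rw [Matrix.smul_apply, Matrix.one_apply, smul_eq_mul]
  by_cases hjk : j = k
  · subst hjk
    rw [if_pos rfl, mul_one]
    have h1 : (M j j).re = (M j0 j0).re := by
      by_cases h0 : j = j0
      · rw [h0]
      · exact le_antisymm (hdiag j0 j (Ne.symm h0)) (hdiag j j0 h0)
    rw [← h1, hMd, Complex.ofReal_re]
  · rw [if_neg hjk, mul_zero]
    exact hoff k j (Ne.symm hjk)

theorem exists_scaling [Nonempty κ] (a : ν → Matrix κ κ ℂ) (ha : Irr a) :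
    ∃ p q : Matrix κ κ ℂ, IsUnit p.det ∧ IsUnit q.det ∧
      (∑ i, (p * a i * q) * (p * a i * q)ᴴ = 1) ∧ (∑ i, (p * a i * q)ᴴ * (p * a i * q) = 1) := by
  obtain ⟨p, q, hp, hq, hmin⟩ := exists_min a ha
  obtain ⟨c, hc⟩ := scalar_of_min (fun i => p * a i * q) (by
    intro g hg
    have := hmin (g * p) q (by rw [Matrix.det_mul, hg, hp, mul_one]) hq
    simpa only [phi, Matrix.mul_assoc] using this)
  obtain ⟨c', hc'⟩ := scalar_of_min (fun i => (p * a i * q)ᴴ) (by
    intro g hg
    have := hmin p (q * gᴴ) hp (by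
      rw [Matrix.det_mul, hq, Matrix.det_conjTranspose, hg, star_one, mul_one])
    rw [phi, phi] at this
    refine le_of_eq_of_le ?_ (le_of_le_of_eq this ?_)
    · exact Finset.sum_congr rfl fun i _ => fro_conjTranspose _
    · refine Finset.sum_congr rfl fun i _ => ?_
      rw [← fro_conjTranspose]
      congr 1
      simp only [Matrix.conjTranspose_mul, Matrix.conjTranspose_conjTranspose, Matrix.mul_assoc])
  simp only [Matrix.conjTranspose_conjTranspose] at hc'
  -- `c = c'` and `c > 0`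
  have hcc : c = c' := by
    have h1 := congrArg Matrix.trace hc
    have h2 := congrArg Matrix.trace hc'
    rw [Matrix.trace_sum, Matrix.trace_smul, Matrix.trace_one, smul_eq_mul] at h1 h2
    have h3 : ∑ i, ((p * a i * q) * (p * a i * q)ᴴ).trace =
        ∑ i, ((p * a i * q)ᴴ * (p * a i * q)).trace :=
      Finset.sum_congr rfl fun i _ => Matrix.trace_mul_comm _ _
    rw [h1, h2] at h3
    have h4 : (Fintype.card κ : ℂ) ≠ 0 := by
      exact_mod_cast Fintype.card_ne_zero
    exact_mod_cast mul_right_cancel₀ h4 h3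
  subst hcc
  have hcnn : 0 ≤ c := by
    obtain ⟨j⟩ := ‹Nonempty κ›
    have h1 := congrFun (congrFun hc j) j
    rw [Matrix.smul_apply, Matrix.one_apply_eq, smul_eq_mul, mul_one, Matrix.sum_apply] at h1
    have h2 : ∑ i, ((p * a i * q) * (p * a i * q)ᴴ) j j =
        ((∑ i, ∑ l, ‖(p * a i * q) j l‖ ^ 2 : ℝ) : ℂ) := by
      rw [Complex.ofReal_sum]
      refine Finset.sum_congr rfl fun i _ => ?_
      rw [Matrix.mul_apply, Complex.ofReal_sum]
      refine Finset.sum_congr rfl fun l _ => ?_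
      rw [Matrix.conjTranspose_apply, ← starRingEnd_apply, Complex.mul_conj', Complex.ofReal_pow]
    rw [h2] at h1
    have h3 : c = ∑ i, ∑ l, ‖(p * a i * q) j l‖ ^ 2 := by exact_mod_cast h1.symm
    rw [h3]
    positivity
  have hc0 : c ≠ 0 := by
    rintro rfl
    -- all `a i` vanish
    have h1 : ∀ i, p * a i * q = 0 := by
      have h2 := congrArg Matrix.trace hc'
      rw [Matrix.trace_sum, Complex.ofReal_zero, zero_smul, Matrix.trace_zero] at h2
      simp only [trace_fro] at h2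
      have h3 : ∑ i, fro (p * a i * q) = 0 := by exact_mod_cast h2
      intro i
      have h4 := (Finset.sum_eq_zero_iff_of_nonneg (fun i _ => fro_nonneg _)).1 h3 i
        (Finset.mem_univ i)
      ext j k
      have h5 := norm_le_of_fro h4.le j k
      have h6 : ‖(p * a i * q) j k‖ = 0 := by
        have := sq_nonneg ‖(p * a i * q) j k‖
        exact pow_eq_zero_iff (two_ne_zero) |>.1 (le_antisymm h5 this)
      simpa using h6
    have hpu : IsUnit p := (Matrix.isUnit_iff_isUnit_det p).2 (by rw [hp]; exact isUnit_one)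
    have hqu : IsUnit q := (Matrix.isUnit_iff_isUnit_det q).2 (by rw [hq]; exact isUnit_one)
    have h2 : ∀ i, a i = 0 := by
      intro i
      have h3 := h1 i
      rw [hqu.mul_left_eq_zero] at h3
      rwa [hpu.mul_right_eq_zero] at h3
    have h3 := ha.1 ⊤
    have h4 : (⨆ i, (⊤ : Submodule ℂ (κ → ℂ)).map (Matrix.toLin' (a i)) :
        Submodule ℂ (κ → ℂ)) = ⊥ := by
      rw [iSup_eq_bot]
      intro i
      rw [h2 i, map_zero, Submodule.map_zero]
    rw [h4, finrank_bot, finrank_top, Module.finrank_fintype_fun_eq_card] at h3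
    have := Fintype.card_pos (α := κ)
    omega
  have hcpos : 0 < c := lt_of_le_of_ne hcnn (Ne.symm hc0)
  set t : ℝ := (Real.sqrt c)⁻¹ with ht
  have ht2 : (t : ℂ) * t * c = 1 := by
    rw [← Complex.ofReal_mul, ← Complex.ofReal_mul, ht, ← mul_inv, Real.mul_self_sqrt hcnn,
      inv_mul_cancel₀ hc0, Complex.ofReal_one]
  have htne : (t : ℂ) ≠ 0 := by
    rw [Complex.ofReal_ne_zero, ht]
    exact inv_ne_zero (Real.sqrt_pos.2 hcpos).ne'
  have hstar : star (t : ℂ) = t := by
    rw [← starRingEnd_apply, Complex.conj_ofReal]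
  refine ⟨(t : ℂ) • p, q, ?_, ?_, ?_, ?_⟩
  · rw [Matrix.det_smul, hp, mul_one]
    exact (isUnit_iff_ne_zero.2 htne).pow _
  · rw [hq]; exact isUnit_one
  · simp only [Matrix.smul_mul, Matrix.conjTranspose_smul, Matrix.mul_smul, smul_smul, hstar]
    rw [← Finset.smul_sum, hc, smul_smul, ht2, one_smul]
  · simp only [Matrix.smul_mul, Matrix.conjTranspose_smul, Matrix.mul_smul, smul_smul, hstar]
    rw [← Finset.smul_sum, hc', smul_smul, ht2, one_smul]

end Pool.Agent.helper16.GUE
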